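import Mathlib
import Pool.Agent.W484.CH.Fin
import Pool.Agent.W484.CH.Conj
import Pool.Agent.W484.CH.Dual

/-!
# Rational and homological equivalence coincide if the Tate classes are classes of products of divisors
-/

set_option autoImplicit false
set_option linter.unusedSectionVars false

open CategoryTheory AlgebraicGeometry

universe u v w

namespace Pool.Agent.K6.H99.AC

open Module Polynomial Pool.Agent.H914 Pool.Agent.H914.VarClass Pool.Agent.H914.VarClass.Obj
  Pool.Agent.W492.BB Pool.Agent.W550.Corr Pool.Agent.W484.TB Pool.Agent.W484.CH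

variable {k : Type u} [Field k] {𝒱 : VarClass k} {C : TheoryData.{u, v, 0} 𝒱 ℚ} {K : Type w}
  [Field K] [CharZero K] [IsAlgClosed K] {H : WeilTheoryData.{u, v, w} C K} [hC : IsChow C]
  [hH : IsWeil H] {X : 𝒱.Obj}

/-- **The argument of Soule, Geisser and Kahn.** -/
theorem ratEqHom_of_basis (hS : IsStandard H) {π : X ⟶ X} {Q : ℕ} (hπ : IsFrobenius C π Q)
    (hQ : 1 < Q) (hnil : Nilpotence H X) {r : ℕ} (b : Basis (Fin r) K (H.A X)) (α : Fin r → K)
    (hb : ∀ t, H.pull π (b t) = α t • b t) (hα : ∀ t, IsIntegral ℚ (α t))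
    (h1 : ∀ t (c : ℤ), α t = (Q : K) ^ c → ∃ k : ℕ, α t = (Q : K) ^ k ∧ b t ∈ NK H X k) :
    RatEqHom H X := by
  classical
  intro i z hz h0
  rcases Nat.lt_or_ge X.dim i with hi | hi
  · have hz' : z ∈ C.gr X i := hz
    rw [hS.chow_top _ _ (by exact_mod_cast hi)] at hz'
    exact (Submodule.mem_bot _).1 hz'
  have hfin := hS.finite X
  obtain ⟨deg, hdeg⟩ := exists_deg hS X X
  obtain ⟨m, D, E, hD, hE, hDE, hspan⟩ := exists_dual_one hS hπ hQ b α hb h1 X hi
  have hDg : ∀ t, D t ∈ C.gr X i := fun t => divProd_mem (hD t)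
  have hmem : ∀ t, ∀ y ∈ C.gr X i, E t * y ∈ C.gr X X.dim := by
    intro t y hy
    have h2 := C.mul_mem (hE t) hy
    rwa [show ((X.dim - i : ℕ) : ℤ) + i = X.dim by omega] at h2
  have hone : (1 : C.A X) ≠ 0 := by
    intro h0
    have := hS.nontrivial X
    have h2 := congrArg (H.cl (X := X)) h0
    rw [map_one, map_zero] at h2
    exact one_ne_zero h2
  -- the projector
  set p : C.A (X.prod X) := ∑ t, C.pull (fst X X) (E t) * C.pull (snd X X) (D t) with hp
  have hpd : C.Deg X.dim p := by
    refine Submodule.sum_mem _ fun t _ => ?_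
    have h2 := C.mul_mem (C.pull_mem (fst X X) (hE t)) (C.pull_mem (snd X X) (hDg t))
    rwa [show ((X.dim - i : ℕ) : ℤ) + i = X.dim by omega] at h2
  have hact : ∀ y ∈ C.gr X i, C.act p y = ∑ t, deg (E t * y) • D t := by
    intro y hy
    rw [hp, C.act_apply, Finset.sum_mul, map_sum]
    refine Finset.sum_congr rfl fun t _ => ?_
    have e1 : C.pull (fst X X) (E t) * C.pull (snd X X) (D t) * C.pull (fst X X) y =
        C.pull (fst X X) (E t * y) * C.pull (snd X X) (D t) := by
      rw [map_mul, mul_assoc, chow_mul_comm (C.pull (snd X X) (D t)), ← mul_assoc]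
    rw [e1, C.proj_right, hdeg _ (hmem t y hy), smul_mul_assoc, one_mul]
  have hactD : ∀ u, C.act p (D u) = D u := by
    intro u
    rw [hact _ (hDg u), Finset.sum_eq_single u]
    · have h2 := hDE u u
      rw [if_pos rfl, chow_mul_comm (D u), hdeg _ (hmem u _ (hDg u))] at h2
      have h3 : deg (E u * D u) = 1 := by
        by_contra h4
        have h5 : (deg (E u * D u) - 1) • (1 : C.A X) = 0 := by
          rw [sub_smul, h2, one_smul, sub_self]
        rcases smul_eq_zero.1 h5 with h6 | h6
        · exact h4 (sub_eq_zero.1 h6)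
        · exact hone h6
      rw [h3, one_smul]
    · intro t _ ht
      have h2 := hDE u t
      rw [if_neg (Ne.symm ht), chow_mul_comm (D u), hdeg _ (hmem t _ (hDg u))] at h2
      rw [(smul_eq_zero.1 h2).resolve_right hone, zero_smul]
    · intro h
      exact absurd (Finset.mem_univ u) h
  have hactz : C.act p z = 0 := by
    rw [hact z hz]
    refine Finset.sum_eq_zero fun t _ => ?_
    have h2 := hdeg _ (hmem t z hz)
    have h3 := congrArg (H.cl (X := X)) h2
    rw [H.cl_push, H.cl_pull, map_mul, h0, mul_zero, map_zero, map_zero] at h3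
    have h4 : H.cl (deg (E t * z) • (1 : C.A X)) = ((deg (E t * z) : ℚ) : K) • (1 : H.A X) := by
      rw [cl_smul, map_one]
    rw [h4] at h3
    have := hS.nontrivial X
    have h5 := (smul_eq_zero.1 h3.symm).resolve_right one_ne_zero
    have h6 : deg (E t * z) = 0 := by exact_mod_cast h5
    rw [h6, zero_smul]
  -- the polynomial
  have hcomp : ∀ (μ : K) (m : ℕ) (f : Fin r → K),
      op (frob H π) μ m (∑ t, f t • b t) = ∑ t, ((α t - μ) ^ m * f t) • b t := by
    intro μ m
    induction m with
    | zero => intro f; simp [op]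
    | succ m ih =>
      intro f
      unfold op at ih ⊢
      rw [pow_succ, Module.End.mul_apply]
      have h2 : (frob H π - μ • (1 : Module.End K (H.A X))) (∑ t, f t • b t) =
          ∑ t, ((α t - μ) * f t) • b t := by
        rw [map_sum]
        refine Finset.sum_congr rfl fun t _ => ?_
        rw [LinearMap.sub_apply, LinearMap.smul_apply, Module.End.one_apply, map_smul]
        have h3 : frob H π (b t) = α t • b t := hb t
        rw [h3, smul_smul, smul_smul, ← sub_smul]
        congr 1
        ring
      rw [h2, ih]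
      refine Finset.sum_congr rfl fun t _ => ?_
      congr 1
      ring
  obtain ⟨P, hP, m', hPm⟩ := exists_poly (frob H π) ((Q : ℚ) ^ i) (by
    intro μ v hv0 hv
    obtain ⟨t, ht⟩ : ∃ t, b.repr v t ≠ 0 := by
      by_contra hall
      push Not at hall
      apply hv0
      rw [← b.sum_repr v]
      exact Finset.sum_eq_zero fun t _ => by rw [hall t, zero_smul]
    have h2 : op (frob H π) μ 1 (∑ t, b.repr v t • b t) = 0 := by
      rw [b.sum_repr, op, pow_one, LinearMap.sub_apply, LinearMap.smul_apply,
        Module.End.one_apply, hv, sub_self]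
    rw [hcomp] at h2
    have h3 := Fintype.linearIndependent_iff.1 b.linearIndependent _ h2 t
    rw [pow_one] at h3
    have h4 := (mul_eq_zero.1 h3).resolve_right ht
    rw [← sub_eq_zero.1 h4]
    exact hα t)
  have hkill : ∀ w : H.A X, H.act (H.cl p) (H.act (H.cl (polyC π P)) w) =
      H.act (H.cl (polyC π P)) w := by
    intro w
    have h2 := hPm w
    have h2' : op (frob H π) ((Q : K) ^ i) m' (H.act (H.cl (polyC π P)) w) = 0 := by
      rw [act_cl_polyC]
      push_cast at h2
      exact h2
    set v := H.act (H.cl (polyC π P)) w with hv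
    rw [← b.sum_repr v, hcomp] at h2'
    have h3 : ∀ t, b.repr v t ≠ 0 → b t ∈ NK H X i := by
      intro t ht
      have h4 := Fintype.linearIndependent_iff.1 b.linearIndependent _ h2' t
      have h5 := sub_eq_zero.1 (eq_zero_of_pow_eq_zero ((mul_eq_zero.1 h4).resolve_right ht))
      obtain ⟨l, hl, hbl⟩ := h1 t i (by rw [zpow_natCast]; exact h5)
      have h6 : l = i := by
        have h7 : ((Q ^ l : ℕ) : K) = ((Q ^ i : ℕ) : K) := by
          push_cast
          rw [← hl, h5]
        exact Nat.pow_right_injective hQ (Nat.cast_injective h7)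
      rwa [h6] at hbl
    have h4 : v ∈ NK H X i := by
      rw [← b.sum_repr v]
      refine Submodule.sum_mem _ fun t _ => ?_
      by_cases ht : b.repr v t = 0
      · rw [ht, zero_smul]
        exact Submodule.zero_mem _
      · exact Submodule.smul_mem _ _ (h3 t ht)
    have h5 : NK H X i ≤ LinearMap.eqLocus (H.actL (H.cl p)) LinearMap.id := by
      refine hspan.trans (Submodule.span_le.2 ?_)
      rintro _ ⟨u, rfl⟩
      rw [SetLike.mem_coe, LinearMap.mem_eqLocus, TheoryData.actL_apply, LinearMap.id_apply]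
      rw [← cl_act, hactD]
    exact h5 h4
  -- nilpotence
  have hdg : C.Deg X.dim (dg C X) := by
    have h1 := C.push_mem (Obj.lift (𝟙 X) (𝟙 X)) (C.one_mem X)
    have h2 : (0 : ℤ) + 1 * (((X.prod X).dim : ℤ) - X.dim) = X.dim := by
      rw [Obj.dim_prod]
      push_cast
      ring
    rw [h2] at h1
    exact h1
  obtain ⟨n, hn⟩ := hnil (C.comp (polyC π P) (dg C X - p))
    (comp_mem (polyC_mem π P) (Submodule.sub_mem _ hdg hpd)) (by
      intro w
      rw [act_cl_comp, map_sub, H.act_sub, act_cl_dg, hkill, sub_self])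
  have hT := chowData_isCorrTheory (C := C)
  have hΘ : C.act (C.comp (polyC π P) (dg C X - p)) z = P.eval ((Q : ℚ) ^ i) • z := by
    have h2 := act_polyC hT (chowData_actsAsPower hπ) (i := (i : ℤ)) (m := z) hz P
    have h3 : C.act (polyC π P) z = P.eval ((Q : ℚ) ^ (i : ℤ)) • z := h2
    rw [C.act_comp, h3, zpow_natCast, act_map_smul, C.act_sub, act_dg, hactz, sub_zero]
  have hpow : ∀ n : ℕ, C.act (powC C (C.comp (polyC π P) (dg C X - p)) n) z =
      P.eval ((Q : ℚ) ^ i) ^ n • z := by
    intro n
    induction n with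
    | zero =>
      rw [pow_zero, one_smul]
      exact act_dg C z
    | succ n ih => rw [powC, C.act_comp, ih, act_map_smul, hΘ, smul_smul, pow_succ]
  have h2 := hpow n
  rw [hn, C.act_zero] at h2
  exact (smul_eq_zero.1 h2.symm).resolve_left (pow_ne_zero _ hP)

end Pool.Agent.K6.H99.AC
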