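import Mathlib
import Pool.Agent.W484.AA.Main
import Pool.Agent.W484.TB.Bad

/-!
# Products of Frobenius eigenvalues of an abelian variety and of a curve
-/

set_option autoImplicit false

namespace Pool.Agent.K6.H99.AC

open Polynomial Module Pool.Agent.H925R2 Pool.Agent.H485R3 Pool.Agent.W484.BB Pool.Agent.W521.Frob
  Pool.Agent.W521.Criterion Pool.Agent.W521.Descent Pool.Agent.W521.Count Pool.Agent.W521.Bad
  Pool.Agent.W521.Density Pool.Agent.W484.TB Pool.Agent.W484.AA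

/-- The condition on relations: if a product of values and of `ρ` is a power `Q ^ c`, then the number
of the values is `2 c - 1`, and there are two of them with product `Q` unless there is only one. -/
def OddPairK {X : Type*} {K : Type*} [Field K] (val : X → K) (Q ρ : K) : Prop :=
  ∀ (n : ℕ) (c : ℤ) (ys : List X), ys.length = n → (ys.map val).prod * ρ = Q ^ c →
    (n : ℤ) + 1 = 2 * c ∧ (n ≠ 1 → ¬ ys.Pairwise (fun y y' => val y * val y' ≠ Q))

variable {I : Type} [Finite I] (g : I → ℕ) (hg : ∀ i, 0 < g i) {q : ℕ} (hqpp : IsPrimePow q)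
  {U : Set ℕ} (x : (Σ i, Fin (g i)) → ℤ) (hx : GoodU U g q x)
  (hw : ∀ i, weil q (polys g x i) ∈ largeRankWeilPolys q (g i)) (s : ℕ) (hs : 0 < s)

include hg hqpp hx hw hs

theorem oddPair (ρ : ℂ) (hρ : IsIntegral ℤ ρ) (hρn : ‖ρ‖ ^ 2 = (q : ℝ) ^ s) :
    OddPairK (fun z : {z : ℂ // ∃ i, aeval z (weil q (polys g x i)) = 0} => (z : ℂ) ^ s)
      ((q : ℂ) ^ s) ρ := by
  obtain ⟨hpat, hirr, -⟩ := hx
  rw [isPrimePow_nat_iff] at hqpp
  obtain ⟨p, a, hp, ha, hqp⟩ := hqpp
  have : Fact p.Prime := ⟨hp⟩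
  have hq0 : q ≠ 0 := by rw [← hqp]; exact pow_ne_zero _ hp.ne_zero
  have hq1 : 1 < q := by rw [← hqp]; exact Nat.one_lt_pow ha.ne' hp.one_lt
  have hqpos : (0 : ℝ) < q := by exact_mod_cast Nat.pos_of_ne_zero hq0
  have hm : ∀ i, (polys g x i).Monic := fun i => mkPoly_monic (g i) _
  choose hw1 r hr1 hr2 hr3 using hw
  let X := {z : ℂ // ∃ i, aeval z (weil q (polys g x i)) = 0}
  have hX : ∀ z : X, ‖(z : ℂ)‖ ^ 2 = q := by
    rintro ⟨z, i, hi⟩
    exact (hw1 i).2.2.2 z hi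
  intro n c ys hlen hrel
  have h1 : (n : ℤ) + 1 = 2 * c := by
    have h2 : ∀ ys : List X, ‖(ys.map (fun z : X => (z : ℂ) ^ s)).prod‖ ^ 2 =
        ((q : ℝ) ^ s) ^ ys.length := by
      intro ys
      induction ys with
      | nil => simp
      | cons y ys ih =>
        rw [List.map_cons, List.prod_cons, norm_mul, mul_pow, ih, norm_pow, ← pow_mul,
          mul_comm s 2, pow_mul, hX, List.length_cons, pow_succ', mul_comm]
    have h3 := congrArg (fun z : ℂ => ‖z‖ ^ 2) hrel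
    beta_reduce at h3
    rw [norm_mul, mul_pow, h2, hρn, hlen, norm_zpow, norm_pow, Complex.norm_natCast] at h3
    have h4 : (((q : ℝ) ^ s) ^ c) ^ 2 = ((q : ℝ) ^ s) ^ (2 * c) := by
      rw [← zpow_natCast, ← zpow_mul, mul_comm]
      norm_num
    rw [h4, ← pow_succ, ← zpow_natCast] at h3
    have hQ1 : (1 : ℝ) < (q : ℝ) ^ s := one_lt_pow₀ (by exact_mod_cast hq1) hs.ne'
    have h5 := zpow_right_injective₀ (by positivity) hQ1.ne' h3
    push_cast at h5
    exact h5
  refine ⟨h1, fun hn1 hpw => ?_⟩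
  obtain ⟨m, hm'⟩ : ∃ m : ℕ, n = 2 * m + 3 := ⟨(n - 3) / 2, by omega⟩
  subst hm'
  have hc' : c = ((m + 2 : ℕ) : ℤ) := by push_cast; push_cast at h1; omega
  have hcc : ∀ i, ¬ (p : ℤ) ∣ (weil q (polys g x i)).coeff (2 * g i - r i) := by
    intro i hdvd
    have h2 : (p : ℤ) ∣ (q : ℤ) := by
      rw [← hqp]
      push_cast
      exact dvd_pow_self _ ha.ne'
    have h3 := (hr3 i).isUnit_of_dvd' hdvd h2
    have h4 := Int.isUnit_iff.1 h3
    have h5 := hp.one_lt
    omega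
  refine odd_relation p a ha hqp.symm hm hirr (fun i => ?_) g r hg (fun i => (hw1 i).2.1)
    (fun i => by have := hr1 i; omega) hcc (fun i => (hw1 i).2.2.1) hr2 s hs ρ hρ hρn m 1 one_pos
    (fun l => ((ys.get (Fin.cast hlen.symm l) : X) : ℂ))
    (fun l => (ys.get (Fin.cast hlen.symm l)).2) ?_ ?_
  · obtain ⟨l, h1, h2, h3, -, h4⟩ := hpat i
    exact ⟨l, h1, h2, h3, h4⟩
  · rw [pow_one, pow_one]
    rw [hc', zpow_natCast] at hrel
    rw [← hrel]
    congr 1
    have h6 : ∏ l : Fin (2 * m + 3), ((ys.get (Fin.cast hlen.symm l) : X) : ℂ) =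
        (ys.map (fun y : X => (y : ℂ))).prod := by
      have h61 : ∏ l : Fin (2 * m + 3), ((ys.get (Fin.cast hlen.symm l) : X) : ℂ) =
          ∏ l : Fin ys.length, ((ys.get l : X) : ℂ) :=
        Fintype.prod_equiv (finCongr hlen.symm) _ _ fun l => rfl
      rw [h61, ← List.prod_ofFn]
      congr 1
      apply List.ext_getElem
      · simp
      · intro i h1 h2
        simp
    rw [h6]
    have h7 : ∀ ys : List X, (ys.map (fun y : X => (y : ℂ))).prod ^ s =
        (ys.map (fun z : X => (z : ℂ) ^ s)).prod := by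
      intro ys
      induction ys with
      | nil => simp
      | cons y ys ih =>
        rw [List.map_cons, List.prod_cons, mul_pow, ih, List.map_cons, List.prod_cons]
    exact h7 ys
  · have hbad : ∀ k' l' : Fin ys.length, k' < l' →
        ((ys.get k' : X) : ℂ) * ((ys.get l' : X) : ℂ) ≠ q := by
      intro k' l' hkl h8
      refine (List.pairwise_iff_get.1 hpw) k' l' hkl ?_
      change ((ys.get k' : X) : ℂ) ^ s * ((ys.get l' : X) : ℂ) ^ s = _
      rw [← mul_pow, h8]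
    intro k' l' hkl
    rcases lt_or_gt_of_ne hkl with h | h
    · exact hbad _ _ h
    · intro h8
      rw [mul_comm] at h8
      exact hbad _ _ h h8

/-- The relations over a field of characteristic zero. -/
theorem oddPair_field {K : Type*} [Field K] [CharZero K] (χ : ℤ[X]) (hχ : χ.Monic)
    (hχn : ∀ ρ : ℂ, aeval ρ χ = 0 → ‖ρ‖ ^ 2 = (q : ℝ) ^ s) (ρ : K) (hρ : aeval ρ χ = 0) :
    OddPairK (fun z : {z : K // ∃ i, aeval z (weil q (polys g x i)) = 0} => (z : K) ^ s)
      ((q : K) ^ s) ρ := by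
  classical
  have hmem : ∀ z : K, (∃ p : ℤ[X], p.Monic ∧ aeval z p = 0) → z ∈ algebraicClosure ℚ K := by
    rintro z ⟨p, hp, hz⟩
    rw [mem_algebraicClosure_iff]
    refine ⟨p.map (algebraMap ℤ ℚ), (hp.map _).ne_zero, ?_⟩
    rw [aeval_map_algebraMap]
    exact hz
  have halg : Algebra.IsAlgebraic ℚ (algebraicClosure ℚ K) := algebraicClosure.isAlgebraic ℚ K
  let j : algebraicClosure ℚ K →ₐ[ℚ] ℂ := IsAlgClosed.lift
  have hj : ∀ (p : ℤ[X]) (z : K) (hz : z ∈ algebraicClosure ℚ K), aeval z p = 0 →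
      aeval (j ⟨z, hz⟩) p = 0 := by
    intro p z hz hi
    have h2 := Polynomial.hom_eval₂ p (algebraMap ℤ _)
      (j : algebraicClosure ℚ K →+* ℂ) ⟨z, hz⟩
    rw [RingHom.ext_int ((j : algebraicClosure ℚ K →+* ℂ).comp (algebraMap ℤ _))
      (algebraMap ℤ ℂ)] at h2
    have h3 : eval₂ (algebraMap ℤ (algebraicClosure ℚ K)) (⟨z, hz⟩ :
        algebraicClosure ℚ K) p = 0 := by
      apply (algebraMap (algebraicClosure ℚ K) K).injective
      rw [map_zero, Polynomial.hom_eval₂, RingHom.ext_int ((algebraMap (algebraicClosure ℚ K)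
        K).comp (algebraMap ℤ _)) (algebraMap ℤ K)]
      exact hi
    rw [h3, map_zero] at h2
    exact h2.symm
  have hρm := hmem ρ ⟨χ, hχ, hρ⟩
  have hρj := hj χ ρ hρm hρ
  have hρi : IsIntegral ℤ (j ⟨ρ, hρm⟩) := ⟨χ, hχ, hρj⟩
  have h0 := oddPair g hg hqpp x hx hw s hs _ hρi (hχn _ hρj)
  have hzm : ∀ z : {z : K // ∃ i, aeval z (weil q (polys g x i)) = 0},
      (z : K) ∈ algebraicClosure ℚ K := by
    rintro ⟨z, i, hi⟩
    exact hmem z ⟨_, weil_monic q (mkPoly_monic (g i) (fun k => x ⟨i, k⟩)), hi⟩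
  have hz : ∀ z : {z : K // ∃ i, aeval z (weil q (polys g x i)) = 0},
      ∃ i, aeval (j ⟨z, hzm z⟩) (weil q (polys g x i)) = 0 := by
    rintro ⟨z, i, hi⟩
    exact ⟨i, hj _ z _ hi⟩
  intro n c ys hlen hrel
  let φ : {z : K // ∃ i, aeval z (weil q (polys g x i)) = 0} →
      {z : ℂ // ∃ i, aeval z (weil q (polys g x i)) = 0} := fun z => ⟨j ⟨z, hzm z⟩, hz z⟩
  have hrel0 : ((ys.map (fun z : {z : K // ∃ i, aeval z (weil q (polys g x i)) = 0} =>
      (⟨z, hzm z⟩ : algebraicClosure ℚ K) ^ s)).prod * ⟨ρ, hρm⟩) =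
        ((q : algebraicClosure ℚ K) ^ s) ^ c := by
    apply (algebraMap (algebraicClosure ℚ K) K).injective
    rw [map_mul, _root_.map_list_prod, List.map_map, map_zpow₀, map_pow, map_natCast]
    exact hrel
  have h4 := congrArg j hrel0
  rw [map_mul, _root_.map_list_prod j, List.map_map, map_zpow₀, map_pow, map_natCast] at h4
  obtain ⟨h5, h6⟩ := h0 n c (ys.map φ) (by rw [List.length_map, hlen]) (by
    rw [List.map_map, ← h4]
    congr 3
    funext z
    change (j ⟨z, hzm z⟩) ^ s = j (⟨z, hzm z⟩ ^ s)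
    rw [map_pow])
  refine ⟨h5, fun hn hpw => h6 hn ?_⟩
  rw [List.pairwise_map]
  refine hpw.imp ?_
  intro a b hab h5
  apply hab
  change (j ⟨a, hzm a⟩) ^ s * (j ⟨b, hzm b⟩) ^ s = (q : ℂ) ^ s at h5
  have h6 : (⟨a, hzm a⟩ : algebraicClosure ℚ K) ^ s * ⟨b, hzm b⟩ ^ s =
      (q : algebraicClosure ℚ K) ^ s := by
    apply (j : algebraicClosure ℚ K →+* ℂ).injective
    rw [map_mul, map_pow, map_pow, map_pow, map_natCast]
    exact h5
  have h7 := congrArg (algebraMap (algebraicClosure ℚ K) K) h6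
  rw [map_mul, map_pow, map_pow, map_pow, map_natCast] at h7
  exact h7

end Pool.Agent.K6.H99.AC
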