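import Mathlib
import Pool.Agent.K6.H99.AC.Odd
import Pool.Agent.W484.CH.Eig

/-!
# Products of eigenvectors of an abelian variety and of a curve
-/

set_option autoImplicit false
set_option linter.unusedSectionVars false

namespace Pool.Agent.K6.H99.AC

open Polynomial Module Pool.Agent.W484.AA Pool.Agent.W484.BB Pool.Agent.W484.HS

variable {K : Type*} [Field K] {R : Type*} [Ring R] [Algebra K R]
variable {X : Type*} (G : R →ₐ[K] R) (val : X → K)

/-- **The induction.** -/
theorem list_odd (Q ρ : K) (hQ : Q ≠ 0) (w : R)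
    (hpair : OddPairK val Q ρ) (M : ℕ → Submodule K R)
    (hmul : ∀ a ∈ M 1, ∀ (k : ℕ), ∀ b ∈ M k, a * b ∈ M (k + 1)) (U : Set R)
    (hanti : ∀ a ∈ U, ∀ b ∈ U, a * b = -(b * a))
    (h2 : ∀ a ∈ U, ∀ b ∈ U, ∀ x y, G a = val x • a → G b = val y • b → val x * val y = Q →
      a * b ∈ M 1)
    (h2' : ∀ a ∈ U, ∀ x, G a = val x • a → val x * ρ = Q → a * w ∈ M 1) :
    ∀ (n : ℕ) (c : ℤ), ∀ L : List (R × X), L.length = n →
      (∀ e ∈ L, e.1 ∈ U ∧ G e.1 = val e.2 • e.1) →
      (L.map (fun e => val e.2)).prod * ρ = Q ^ c →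
      ∃ k : ℕ, (L.map (fun e => val e.2)).prod * ρ = Q ^ (k + 1) ∧
        (L.map Prod.fst).prod * w ∈ M (k + 1) := by
  intro n
  induction n using Nat.strong_induction_on with
  | _ n ih =>
    intro c L hlen hL hrel
    obtain ⟨h3, h4⟩ := hpair n c (L.map Prod.snd) (by rw [List.length_map, hlen]) (by
        rw [List.map_map]
        exact hrel)
    by_cases hn : n = 1
    · subst hn
      obtain ⟨e, rfl⟩ := List.length_eq_one_iff.1 hlen
      have hc : c = 1 := by push_cast at h3; omega
      subst hc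
      obtain ⟨he1, he2⟩ := hL e (by simp)
      simp only [List.map_cons, List.map_nil, List.prod_singleton, zpow_one] at hrel ⊢
      exact ⟨0, by rw [hrel, zero_add, pow_one], h2' _ he1 _ he2 hrel⟩
    · have h5 := h4 hn
      rw [List.pairwise_map] at h5
      obtain ⟨e, e', L', hperm, hgood⟩ := exists_of_not_pairwise _ L h5
      rw [not_not] at hgood
      have heL : e ∈ L := hperm.mem_iff.2 (by simp)
      have heL' : e' ∈ L := hperm.mem_iff.2 (by simp)
      have hlen' : n = L'.length + 2 := by
        have h2 := hperm.length_eq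
        rw [List.length_cons, List.length_cons, hlen] at h2
        omega
      obtain ⟨b', hb'⟩ := prod_perm_anti (K := K) (hperm.map Prod.fst) (by
        intro a ha b hb
        rw [List.mem_map] at ha hb
        obtain ⟨e₁, he₁, rfl⟩ := ha
        obtain ⟨e₂, he₂, rfl⟩ := hb
        exact hanti _ (hL e₁ he₁).1 _ (hL e₂ he₂).1)
      have h6 : (L.map (fun e => val e.2)).prod = Q * (L'.map (fun e => val e.2)).prod := by
        rw [(hperm.map (fun e => val e.2)).prod_eq, List.map_cons, List.prod_cons,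
          List.map_cons, List.prod_cons, ← mul_assoc, hgood]
      obtain ⟨k, hkv, h7⟩ := ih L'.length (by omega) (c - 1) L' rfl
        (fun e₁ he₁ => hL e₁ (hperm.mem_iff.2
          (List.mem_cons_of_mem _ (List.mem_cons_of_mem _ he₁)))) (by
        have h8 : Q ^ c = Q * Q ^ (c - 1) := by
          rw [← zpow_one_add₀ hQ]
          congr 1
          ring
        rw [h6, h8, mul_assoc] at hrel
        exact mul_left_cancel₀ hQ hrel)
      refine ⟨k + 1, by rw [h6, mul_assoc, hkv, pow_succ' Q (k + 1)], ?_⟩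
      rw [hb', smul_mul_assoc]
      refine Submodule.smul_mem _ _ ?_
      rw [List.map_cons, List.prod_cons, List.map_cons, List.prod_cons, ← mul_assoc, mul_assoc]
      exact hmul _ (h2 _ (hL e heL).1 _ (hL e' heL').1 _ _ (hL e heL).2 (hL e' heL').2 hgood) _ _ h7

end Pool.Agent.K6.H99.AC
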