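import Mathlib
import Pool.Agent.K6.H99.AC.List
import Pool.Agent.K6.H99.AC.Kahn

/-!
# Rational and homological equivalence on the product of an abelian variety and a curve
-/

set_option autoImplicit false
set_option linter.unusedSectionVars false

open CategoryTheory AlgebraicGeometry

universe u v w

namespace Pool.Agent.K6.H99.AC

open Module Polynomial Pool.Agent.H914 Pool.Agent.H914.VarClass Pool.Agent.H914.VarClass.Obj
  Pool.Agent.W492.BB Pool.Agent.W550.Corr Pool.Agent.W484.TB Pool.Agent.W484.CH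
  Pool.Agent.W521.Frob Pool.Agent.W521.Count Pool.Agent.W521.Bad Pool.Agent.W521.Descent
  Pool.Agent.W521.Density Pool.Agent.W484.AA

variable {k : Type u} [Field k] {𝒱 : VarClass k} {C : TheoryData.{u, v, 0} 𝒱 ℚ} {K : Type w}
  [Field K] [CharZero K] {H : WeilTheoryData.{u, v, w} C K} [hC : IsChow C]
  [hH : IsWeil H] {A Y X Z : 𝒱.Obj}

theorem divProd_pull (f : X ⟶ Z) {n : ℕ} {D : C.A Z} (hD : D ∈ DivProd C Z n) :
    C.pull f D ∈ DivProd C X n := by
  obtain ⟨L, h1, h2, rfl⟩ := hD
  refine ⟨L.map (C.pull f), by rw [List.length_map, h1], ?_, by rw [_root_.map_list_prod]⟩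
  intro x hx
  obtain ⟨y, hy, rfl⟩ := List.mem_map.1 hx
  exact C.pull_mem f (h2 y hy)

theorem NK_pull (f : X ⟶ Z) {n : ℕ} {c : H.A Z} (hc : c ∈ NK H Z n) :
    H.pull f c ∈ NK H X n := by
  unfold NK at hc
  induction hc using Submodule.span_induction with
  | mem c hc =>
    obtain ⟨D, hD, rfl⟩ := hc
    exact Submodule.subset_span ⟨C.pull f D, divProd_pull f hD, (H.cl_pull f D).symm⟩
  | zero => rw [map_zero]; exact Submodule.zero_mem _
  | add x y _ _ hx hy => rw [map_add]; exact Submodule.add_mem _ hx hy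
  | smul a x _ hx => rw [map_smul]; exact Submodule.smul_mem _ _ hx

/-- `H^1(Y)` is spanned by eigenvectors of `π` with eigenvalues roots of `χ`. -/
def SpannedBy (H : WeilTheoryData.{u, v, w} C K) (π : Y ⟶ Y) (χ : ℤ[X]) : Prop :=
  ∀ c ∈ H.gr Y 1, c ∈ Submodule.span K {c | H.Deg 1 c ∧ ∃ ρ : K, aeval ρ χ = 0 ∧ H.up π c = ρ • c}

/-- The classes in the set `S` are linear combinations of classes of divisors. -/
def Divisorial (H : WeilTheoryData.{u, v, w} C K) (c : H.A Y) : Prop :=
  c ∈ Submodule.span K {c | ∃ D : C.A Y, C.Deg 1 D ∧ c = H.cl D}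

variable {I : Type} [Finite I] (g : I → ℕ) (hg : ∀ i, 0 < g i) {q : ℕ} (hqpp : IsPrimePow q)
  (E : IntermediateField ℚ ℂ) [FiniteDimensional ℚ E]
  (x : (Σ i, Fin (g i)) → ℤ) (hx : GoodU (splitPrimes E) g q x)
  (hw : ∀ i, weil q (polys g x i) ∈ largeRankWeilPolys q (g i)) (s : ℕ) (hs : 0 < s)

include hg hqpp hx hw hs in
/-- **Rational and homological equivalence coincide on `A × Y`.** -/
theorem ratEqHom_curve [IsAlgClosed K] (hS : IsStandard H) {πA : A ⟶ A} {πY : Y ⟶ Y}
    (hA : IsAbelian H πA q s (fun i => weil q (polys g x i))) (hdim : Y.dim = 1)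
    (hY : IsFrobenius C πY (q ^ s)) {χ : ℤ[X]} (hχ : χ.Monic)
    (hχn : ∀ ρ : ℂ, aeval ρ χ = 0 → ‖ρ‖ ^ 2 = (q : ℝ) ^ s) (hY1 : SpannedBy H πY χ)
    (hY2 : ∀ c ∈ H.gr Y 2, Divisorial H c)
    (htate : ∀ c ∈ H.gr (A.prod Y) 2, H.pull (prodMap πA πY) c = ((q ^ s : ℕ) : K) • c →
      Divisorial H c)
    (hF : IsFrobenius C (prodMap πA πY) (q ^ s)) (hnil : Nilpotence H (A.prod Y)) :
    RatEqHom H (A.prod Y) := by
  classical
  have hfin := hS.finite A
  have hfinX := hS.finite (A.prod Y)
  have hq1 : 1 < q := hqpp.one_lt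
  have hq0 : q ≠ 0 := by omega
  have hQ1 : 1 < q ^ s := Nat.one_lt_pow hs.ne' hq1
  have hQ : ((q ^ s : ℕ) : K) = (q : K) ^ s := by push_cast; rfl
  have hQ0 : (q : K) ^ s ≠ 0 := pow_ne_zero _ (by exact_mod_cast hq0)
  let V := {z : K // ∃ i, aeval z (weil q (polys g x i)) = 0}
  let val : V → K := fun z => (z : K) ^ s
  have hU : Submodule.span K {v : H.A A | v ∈ H.gr A 1 ∧ ∃ y, H.pull πA v = val y • v} =
      H.gr A 1 := by
    refine Eq.trans ?_ hA.eigen
    congr 1
    ext v
    constructor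
    · rintro ⟨h1, ⟨z, i, hz⟩, h2⟩
      exact ⟨h1, i, z, hz, h2⟩
    · rintro ⟨h1, i, z, hz, h2⟩
      exact ⟨h1, ⟨z, i, hz⟩, h2⟩
  obtain ⟨n, b, α, hb⟩ := exists_basis (H.pull πA) val (H.gr A 1) hU hA.generated
  have hαi : ∀ t, IsIntegral ℚ (α t) := by
    intro t
    obtain ⟨-, L, -, -, hL⟩ := hb t
    rw [hL]
    clear hL
    induction L with
    | nil => simpa using isIntegral_one
    | cons a L ih =>
      rw [List.map_cons, List.prod_cons]
      refine IsIntegral.mul ?_ ih
      obtain ⟨i, hi⟩ := a.2.2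
      have h1 : IsIntegral ℤ (a.2 : K) := ⟨weil q (polys g x i),
        weil_monic q (mkPoly_monic (g i) _), hi⟩
      exact (h1.tower_top (A := ℚ)).pow s
  -- the even part
  have hX1 : (Polynomial.X - 1 : ℚ[X]) ≠ 0 := by
    have := Polynomial.X_sub_C_ne_zero (1 : ℚ)
    rwa [map_one] at this
  have heven : ∀ t (c : ℤ), α t = ((q : K) ^ s) ^ c →
      ∃ l : ℕ, α t = ((q : K) ^ s) ^ l ∧ b t ∈ NK H A l := by
    intro t c hc
    obtain ⟨-, L, hL1, hL2, hL3⟩ := hb t
    have hpair := exactPair_field_over g E hq0 0 hg x hx s hs _ hX1 (rank_one E 0) (1 : K)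
      (by rw [map_sub, aeval_X, map_one, sub_self])
    have h1 := list_graded (H.pull πA) val ((q : K) ^ s) 1 hQ0 hpair (NK H A) one_mem_NK
      (fun a ha l b hb => by
        rw [add_comm l 1]
        exact mul_mem_NK ha hb)
      (H.gr A 1 : Set (H.A A)) (fun a ha b hb => hA.anticomm a b ha hb)
      (fun a ha b hb y y' h2 h3 h4 => by
        apply mem_NK_one
        refine hA.tate (a * b) (H.mul_mem ha hb) ?_
        change H.pull πA (a * b) = _
        rw [map_mul, h2, h3, smul_mul_smul_comm, h4, hQ])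
      L.length c 1 one_pos L rfl hL1 (by rw [pow_one, pow_one, ← hL3, mul_one]; exact hc)
    obtain ⟨l, -, h2, h3⟩ := h1
    exact ⟨l, by rw [hL3, h2], by rw [hL2]; exact h3⟩
  -- the odd part
  have hodd : ∀ t (c : ℤ) (ρ : K) (y : H.A Y), aeval ρ χ = 0 → y ∈ H.gr Y 1 →
      H.pull πY y = ρ • y → α t * ρ = ((q : K) ^ s) ^ c →
      ∃ l : ℕ, α t * ρ = ((q : K) ^ s) ^ l ∧ H.ext (b t) y ∈ NK H (A.prod Y) l := by
    intro t c ρ y hρ hy hyρ hc
    obtain ⟨-, L, hL1, hL2, hL3⟩ := hb t
    have hpair := oddPair_field g hg hqpp x hx hw s hs χ hχ hχn ρ hρ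
    have hup : ∀ a : H.A A, H.pull (prodMap πA πY) (H.pull (fst A Y) a) =
        H.pull (fst A Y) (H.pull πA a) := by
      intro a
      rw [← H.pull_comp, ← H.pull_comp, prodMap_fst]
    have hupY : H.pull (prodMap πA πY) (H.pull (snd A Y) y) = ρ • H.pull (snd A Y) y := by
      rw [← H.pull_comp, prodMap_snd, H.pull_comp, hyρ, map_smul]
    have h1 := list_odd (H.pull (prodMap πA πY)) val ((q : K) ^ s) ρ hQ0 (H.pull (snd A Y) y)
      hpair (NK H (A.prod Y))
      (fun a ha l b hb => by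
        rw [add_comm l 1]
        exact mul_mem_NK ha hb)
      {a | ∃ a₀ ∈ H.gr A 1, a = H.pull (fst A Y) a₀ ∧ ∀ y : V,
        H.pull (prodMap πA πY) a = val y • a → H.pull (fst A Y) (H.pull πA a₀) =
          H.pull (fst A Y) (val y • a₀)}
      (by
        rintro _ ⟨a, ha, rfl, -⟩ _ ⟨a', ha', rfl, -⟩
        rw [← map_mul, hA.anticomm a a' ha ha', map_neg, map_mul])
      (by
        rintro _ ⟨a, ha, rfl, h2⟩ _ ⟨a', ha', rfl, h2'⟩ v v' h3 h4 h5
        rw [← map_mul]
        apply mem_NK_one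
        have h6 := H.mul_mem ha ha'
        refine htate _ (by rw [show (2 : ℤ) = 1 + 1 by norm_num]; exact H.pull_mem _ h6) ?_
        rw [map_mul, map_mul, h3, h4, smul_mul_smul_comm, h5, hQ])
      (by
        rintro _ ⟨a, ha, rfl, h2⟩ v h3 h5
        apply mem_NK_one
        have h6 := H.mul_mem (H.pull_mem (fst A Y) ha) (H.pull_mem (snd A Y) hy)
        refine htate _ (by rw [show (2 : ℤ) = 1 + 1 by norm_num]; exact h6) ?_
        rw [map_mul, h3, hupY, smul_mul_smul_comm, h5, hQ])
      L.length c (L.map fun e => (H.pull (fst A Y) e.1, e.2)) (by rw [List.length_map])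
      (by
        intro e' he'
        obtain ⟨e, he, rfl⟩ := List.mem_map.1 he'
        obtain ⟨h2, h3⟩ := hL1 e he
        refine ⟨⟨e.1, h2, rfl, fun v hv => ?_⟩, ?_⟩
        · rw [map_smul, ← hv, hup]
        · dsimp only
          rw [hup, h3, map_smul])
      (by
        rw [List.map_map]
        rw [hL3] at hc
        exact hc)
    obtain ⟨l, h2, h3⟩ := h1
    rw [List.map_map] at h2 h3
    refine ⟨l + 1, by rw [hL3]; exact h2, ?_⟩
    have h4 : H.ext (b t) y = (L.map (Prod.fst ∘ fun e => (H.pull (fst A Y) e.1, e.2))).prod *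
        H.pull (snd A Y) y := by
      rw [TheoryData.ext, hL2, _root_.map_list_prod, List.map_map]
      rfl
    rw [h4]
    exact h3
  -- the spanning set
  set Sp : Set (H.A (A.prod Y)) := {v | ∃ β : K, H.pull (prodMap πA πY) v = β • v ∧
    IsIntegral ℚ β ∧ ∀ c : ℤ, β = ((q : K) ^ s) ^ c → ∃ l : ℕ, β = ((q : K) ^ s) ^ l ∧
      v ∈ NK H (A.prod Y) l} with hSp
  have hext : ∀ t (y : H.A Y), H.ext (b t) y ∈ Submodule.span K Sp := by
    intro t
    have hlin : ∀ (S : Set (H.A Y)), (∀ y ∈ S, H.ext (b t) y ∈ Submodule.span K Sp) →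
        ∀ y ∈ Submodule.span K S, H.ext (b t) y ∈ Submodule.span K Sp := by
      intro S hS' y hy
      induction hy using Submodule.span_induction with
      | mem y hy => exact hS' y hy
      | zero =>
        have : H.ext (b t) (0 : H.A Y) = 0 := by rw [TheoryData.ext, map_zero, mul_zero]
        rw [this]
        exact Submodule.zero_mem _
      | add x y _ _ hx hy => rw [ext_add_right]; exact Submodule.add_mem _ hx hy
      | smul a x _ hx => rw [ext_smul_right]; exact Submodule.smul_mem _ _ hx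
    have hE1 : H.ext (b t) (1 : H.A Y) ∈ Submodule.span K Sp := by
      refine Submodule.subset_span ⟨α t, ?_, hαi t, fun c hc => ?_⟩
      · rw [pull_prodMap_ext, (hb t).1, map_one, ext_smul_left, ext_smul_right]
      · obtain ⟨l, h1, h2⟩ := heven t c hc
        refine ⟨l, h1, ?_⟩
        rw [TheoryData.ext, map_one, mul_one]
        exact NK_pull _ h2
    have hEd : ∀ D : C.A Y, C.Deg 1 D → H.ext (b t) (H.cl D) ∈ Submodule.span K Sp := by
      intro D hD
      have h1 : H.pull πY (H.cl D) = ((q : K) ^ s) • H.cl D := by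
        have h2 : C.pull πY D = ((q ^ s : ℕ) : ℚ) ^ 1 • D := hY.chow 1 D (by exact_mod_cast hD)
        rw [← H.cl_pull, h2, cl_smul, pow_one]
        congr 1
        push_cast
        rfl
      refine Submodule.subset_span ⟨α t * (q : K) ^ s, ?_, ?_, fun c hc => ?_⟩
      · rw [pull_prodMap_ext, (hb t).1, h1, ext_smul_left, ext_smul_right, ext_smul_right,
          smul_smul]
      · have h3 : IsIntegral ℚ ((algebraMap ℚ K) ((q : ℚ) ^ s)) := isIntegral_algebraMap
        rw [map_pow, map_natCast] at h3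
        exact (hαi t).mul h3
      · have h2 : α t = ((q : K) ^ s) ^ (c - 1) := by
          rw [zpow_sub_one₀ hQ0, ← hc, mul_assoc, mul_inv_cancel₀ hQ0, mul_one]
        obtain ⟨l, h3, h4⟩ := heven t _ h2
        refine ⟨l + 1, by rw [h3, pow_succ], ?_⟩
        rw [TheoryData.ext]
        refine mul_mem_NK (NK_pull _ h4) (NK_pull _ ?_)
        exact mem_NK_one (Submodule.subset_span ⟨D, hD, rfl⟩)
    intro y
    refine homog_induction H.toTheoryData (p := fun y => H.ext (b t) y ∈ Submodule.span K Sp)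
      ?_ ?_ y
    · intro i a ha
      rcases lt_trichotomy i 0 with hi | hi | hi
      · rw [H.gr_neg _ _ hi, Submodule.mem_bot] at ha
        rw [ha]
        exact hlin ∅ (by simp) 0 (Submodule.zero_mem _)
      · subst hi
        obtain ⟨c, rfl⟩ := hS.coh_zero Y a ha
        exact hlin {1} (by rintro _ rfl; exact hE1) _
          (Submodule.smul_mem _ _ (Submodule.mem_span_singleton_self _))
      · rcases lt_trichotomy i 2 with hi2 | hi2 | hi2
        · have hi1 : i = 1 := by omega
          subst hi1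
          refine hlin _ ?_ _ (hY1 a ha)
          rintro y ⟨hy1, ρ, hρ, hy2⟩
          refine Submodule.subset_span ⟨α t * ρ, ?_, ?_, fun c hc => ?_⟩
          · have hy2' : H.pull πY y = ρ • y := hy2
            rw [pull_prodMap_ext, (hb t).1, hy2', ext_smul_left, ext_smul_right, ext_smul_right,
              smul_smul]
          · refine (hαi t).mul ?_
            have h3 : IsIntegral ℤ ρ := ⟨χ, hχ, hρ⟩
            exact h3.tower_top
          · exact hodd t c ρ y hρ hy1 hy2 hc
        · subst hi2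
          refine hlin _ ?_ _ (hY2 a ha)
          rintro _ ⟨D, hD, rfl⟩
          exact hEd D hD
        · rw [hS.coh_top _ _ (by rw [hdim]; push_cast; omega), Submodule.mem_bot] at ha
          rw [ha]
          exact hlin ∅ (by simp) 0 (Submodule.zero_mem _)
    · intro a a' h1 h2
      rw [ext_add_right]
      exact Submodule.add_mem _ h1 h2
  have hspan : Submodule.span K Sp = ⊤ := by
    rw [eq_top_iff]
    intro w _
    obtain ⟨h, rfl⟩ := kunneth_exists b w
    exact Submodule.sum_mem _ fun t _ => hext t _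
  -- the basis
  obtain ⟨S, hS1, hS2, hS3⟩ := exists_linearIndependent K Sp
  have hft := hS3.setFinite.fintype
  let b' : Basis S K (H.A (A.prod Y)) := Basis.mk hS3 (by
    rw [Subtype.range_coe, hS2, hspan])
  let e := Fintype.equivFin S
  let b'' := b'.reindex e
  have hb'' : ∀ t, b'' t ∈ Sp := by
    intro t
    have h1 : b'' t = (e.symm t : H.A (A.prod Y)) := by
      rw [Basis.reindex_apply, Basis.mk_apply]
    rw [h1]
    exact hS1 (e.symm t).2
  choose β hβ1 hβ2 hβ3 using hb''
  refine ratEqHom_of_basis hS hF hQ1 hnil b'' β hβ1 hβ2 fun t c hc => ?_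
  rw [hQ] at hc ⊢
  exact hβ3 t c hc

end Pool.Agent.K6.H99.AC
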